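import Pool.Agent.Helper16.AZ.Stmts

/-! Module DEW of MP_7a8f48_an (helper97): the component orthogonal to the eigenvectors. -/

open Finset Filter MeasureTheory Topology
open scoped ComplexConjugate InnerProductSpace

namespace Pool.Agent.Helper16.AZ

open Pool.Agent.Helper16.MD (MS PB Am RW Rich)
open UnitAddTorus (mFourier)

theorem st_DEW (h1 : ST_PIN) : ST_DEW := by
  intro r d β φ W v hφ hW hv
  have : CompleteSpace (PP W : Submodule ℂ (LL r d)) := by
    have hc : IsClosed ((PP W : Submodule ℂ (LL r d)) : Set (LL r d)) :=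
      Submodule.isClosed_topologicalClosure _
    exact hc.completeSpace_coe
  obtain ⟨f, hf, w, hw, hvw⟩ := Submodule.exists_add_mem_mem_orthogonal (K := PP W) v
  refine ⟨w, hw, ?_, ?_⟩
  · rw [hvw, add_sub_cancel_right]; exact hf
  · have h2 := h1 r d β φ W hφ hW f hf w hw
    have h3 : (v : T r → E d) =ᵐ[mm r] fun θ => (f : T r → E d) θ + (w : T r → E d) θ := by
      rw [hvw]; exact Lp.coeFn_add f w
    filter_upwards [h2, h3, hv] with θ h4 h5 h6
    rw [h5] at h6
    have h7 := norm_add_sq_eq_norm_sq_add_norm_sq_of_inner_eq_zero (𝕜 := ℂ)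
      ((f : T r → E d) θ) ((w : T r → E d) θ) h4
    nlinarith [norm_nonneg ((w : T r → E d) θ), norm_nonneg ((f : T r → E d) θ),
      norm_nonneg ((f : T r → E d) θ + (w : T r → E d) θ)]

end Pool.Agent.Helper16.AZ
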